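import Pool.Agent.Helper38.ND.GoalsC
import Pool.Agent.Helper27.LG.BG

/-!
Project ND (MP_fc6b1e_nt): packet N_ANH.
-/

set_option autoImplicit false

namespace Pool.Agent.Helper26.ND

open NumberField Polynomial Module IsDedekindDomain
open Pool.Agent.Helper51.RP Pool.Agent.Helper42.RD Pool.Agent.Helper42.PP Pool.Agent.Helper42.PP1
open Pool.Agent.Helper51.SigLeo Pool.Agent.Helper11.LE Pool.Agent.Helper11.PP
open Pool.Agent.Helper17.PP (Sys)
open Pool.Agent.Helper17.PP0 (Hyp₀)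
open Pool.Agent.Helper42.PB Pool.Agent.Helper76.PB
open Pool.Agent.Helper38.ND

theorem n_anh : Pool.Agent.Helper38.ND.N_ANH := by
  intro hANA hBRU hBRK p _ K M K₁ M₁ _ _ _ _ _ _ _ _ _ _ _ _ _ ε δ P _ _ B n E V s0 aτ ψ g K' hHyp
    K₀ hslow c X₁ hc hlow θ hθ hw
  obtain ⟨Kb, hKb⟩ := hBRK (hBRU Pool.Agent.Helper27.LG.bg) p K
  have hBr : Brun (sysB B E V s0 aτ) Kb :=
    hKb _ _ _ _ _ _ (sysB B E V s0 aτ) (fun q => rfl)
  exact hANA p B.LP _ _ _ _ _ (sysB B E V s0 aτ) ψ g K' hHyp Kb hBr K₀ hslow c X₁ hc hlow θ hθ hw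

end Pool.Agent.Helper26.ND
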